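import Mathlib
import Pool.Agent.Results.MP_e2d93f_co.AllK

/-!
# MP_5402c6: the conjectured edge maximum fails for every `k`, at `n = 3k+4`
-/

namespace Pool.Agent.Results.MP_5402c6_co.ConjectureFails

open Pool.Agent.Results.MP_e2d93f_co.AllK

/-- For every `k` the maximum number of edges of a semi-arc `k`-visibility graph on `n = 3k+4`
vertices is `n(n-1)/2`, which exceeds the conjectured value `(k+1)(2n - (3k+6)/2)`. -/
theorem result : ∀ k n : ℕ, n = 3 * k + 4 →
    IsGreatest {m : ℕ | ∃ G : SimpleGraph (Fin n), IsSemiArcVisibility k G ∧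
      G.edgeSet.ncard = m} (n.choose 2) ∧
    ((k : ℚ) + 1) * (2 * n - (3 * k + 6) / 2) < (n.choose 2 : ℕ) := by
  classical
  rintro k n rfl
  refine ⟨⟨⟨⊤, Pool.Agent.Results.MP_e2d93f_co.AllK.result k, ?_⟩, ?_⟩, ?_⟩
  · rw [← SimpleGraph.coe_edgeFinset, Set.ncard_coe_finset, SimpleGraph.card_edgeFinset_top_eq_card_choose_two]
    simp
  · rintro m ⟨G, -, rfl⟩
    rw [← SimpleGraph.coe_edgeFinset, Set.ncard_coe_finset]
    have := G.card_edgeFinset_le_card_choose_two
    simpa using this
  · have h : (((3 * k + 4).choose 2 : ℕ) : ℚ) = (3 * k + 4) * (3 * k + 3) / 2 := by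
      rw [Nat.cast_choose_two]
      push_cast
      ring
    rw [h]
    push_cast
    have hk : (0 : ℚ) ≤ k := by positivity
    nlinarith

end Pool.Agent.Results.MP_5402c6_co.ConjectureFails
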